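import Pool.Agent.H664.FH.Stm

/-!
Project FH (helper664), job GOOD: unramified sheets of a variety over a hypersurface.
-/

set_option autoImplicit false

namespace Pool.Agent.H935.FH

open MvPolynomial Filter Topology Metric Pool.Agent.W996.EC Pool.Agent.Q72.EG Pool.Agent.H664.FH

/-- a polynomial in holomorphic functions is holomorphic -/
theorem diff_eval {W : Type} [NormedAddCommGroup W] [NormedSpace ℂ W] {σ : Type} {U : Set W}
    {t : W → σ → ℂ} (ht : ∀ i, DifferentiableOn ℂ (fun u => t u i) U) (g : MvPolynomial σ ℂ) :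
    DifferentiableOn ℂ (fun u => eval (t u) g) U := by
  induction g using MvPolynomial.induction_on with
  | C c => simp only [eval_C]; exact differentiableOn_const c
  | add p q hp hq => simp only [map_add]; exact hp.add hq
  | mul_X p i hp => simp only [map_mul, eval_X]; exact hp.mul (ht i)

variable {n : ℕ} {E : Type} [Field E] [Algebra ℂ E]

/-- a relation between `x` and a transcendental `Y` is divisible by `P` -/
theorem dvd_of_rel (G : Cv n E) {i : Fin n} (hT : G.T i) (A : MvPolynomial (Option (Fin n)) ℂ)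
    (hA : aeval (oe (G.y i) G.x) A = 0) (j : ℕ) : G.P ∣ cf A j := by
  classical
  rw [← G.hx]
  set K0 := IntermediateField.adjoin ℂ (Set.range G.x) with hK0
  have hmem : ∀ g : MvPolynomial (Fin n) ℂ, aeval G.x g ∈ K0 := by
    intro g
    induction g using MvPolynomial.induction_on with
    | C c => rw [aeval_C]; exact K0.algebraMap_mem c
    | add p q hp hq => rw [map_add]; exact K0.add_mem hp hq
    | mul_X p l hp =>
      rw [map_mul, aeval_X]
      exact K0.mul_mem hp (IntermediateField.subset_adjoin _ _ ⟨l, rfl⟩)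
  set N := (optionEquivLeft ℂ (Fin n) A).natDegree with hN
  set p : Polynomial K0 := ∑ k ∈ Finset.range (N + 1),
    Polynomial.monomial k (⟨aeval G.x (cf A k), hmem _⟩ : K0) with hp
  have hp0 : Polynomial.aeval (G.y i) p = 0 := by
    rw [aeval_oe_sum] at hA
    rw [hp, map_sum, ← hA]
    refine Finset.sum_congr rfl fun k _ => ?_
    rw [Polynomial.aeval_monomial]
    rfl
  have hpz : p = 0 := by
    by_contra hne
    exact hT ⟨p, hne, hp0⟩
  by_cases hj : j ∈ Finset.range (N + 1)
  · have h1 : p.coeff j = (⟨aeval G.x (cf A j), hmem _⟩ : K0) := by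
      rw [hp, Polynomial.finsetSum_coeff]
      rw [Finset.sum_eq_single j]
      · rw [Polynomial.coeff_monomial, if_pos rfl]
      · intro k _ hk
        rw [Polynomial.coeff_monomial, if_neg hk]
      · intro h; exact absurd hj h
    rw [hpz, Polynomial.coeff_zero] at h1
    exact (congrArg Subtype.val h1).symm
  · have h2 : cf A j = 0 := by
      rw [Finset.mem_range] at hj
      exact Polynomial.coeff_eq_zero_of_natDegree_lt (by omega)
    rw [h2, map_zero]

theorem pt_zeta (G : Cv n E) {i : Fin n} (hT : G.T i) {x : Fin n → ℂ} {Y : ℂ}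
    (hx : eval x G.P = 0) : oe Y x ∈ Pt (oe (G.y i) G.x) := by
  intro g hg
  rw [eval_oe_sum]
  refine Finset.sum_eq_zero fun j _ => ?_
  obtain ⟨c, hc⟩ := dvd_of_rel G hT g hg j
  rw [hc, map_mul, hx, zero_mul, zero_mul]

omit [Field E] [Algebra ℂ E] in
theorem range_oe (Y : E) (x : Fin n → E) : Set.range (oe Y x) = insert Y (Set.range x) := by
  ext e
  constructor
  · rintro ⟨(_ | l), rfl⟩
    · exact Set.mem_insert _ _
    · exact Set.mem_insert_of_mem _ ⟨l, rfl⟩
  · rintro (rfl | ⟨l, rfl⟩)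
    · exact ⟨none, rfl⟩
    · exact ⟨some l, rfl⟩

theorem alg_all (G : Cv n E) {i : Fin n} (hT : G.T i) (f : E) :
    IsAlgebraic (IntermediateField.adjoin ℂ (Set.range (oe (G.y i) G.x))) f := by
  rw [range_oe]
  exact G.tr1 (G.y i) f hT

/-- renaming -/
def rr (i : Fin n) : Option (Fin n) → Fin n ⊕ Fin n := fun o => o.elim (Sum.inr i) Sum.inl

theorem comp_rr {α : Type} (i : Fin n) (x y : Fin n → α) :
    (Sum.elim x y) ∘ (rr i) = oe (y i) x := by
  funext o
  rcases o with _ | l <;> rfl

/-- renaming back -/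
def r2 : Fin n ⊕ Fin n → Option (Fin n) ⊕ Fin n := Sum.elim (fun l => Sum.inl (some l)) Sum.inr

theorem comp_r2 {α : Type} (Y : α) (x y : Fin n → α) :
    (Sum.elim (oe Y x) y) ∘ r2 = Sum.elim x y := by
  funext o
  rcases o with l | l <;> rfl

/-- points of `(ζ, y)` and points of `(x, y)` -/
theorem pt_iff (i : Fin n) (X Yv : Fin n → E) (x p : Fin n → ℂ) (z : ℂ) :
    Sum.elim (oe z x) p ∈ Pt (Sum.elim (oe (Yv i) X) Yv) ↔
      Sum.elim x p ∈ Pt (Sum.elim X Yv) ∧ p i = z := by
  constructor
  · intro h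
    refine ⟨?_, ?_⟩
    · intro g hg
      have := h (rename r2 g) (by rw [aeval_rename, comp_r2]; exact hg)
      rwa [eval_rename, comp_r2] at this
    · have := h (MvPolynomial.X (Sum.inr i) - MvPolynomial.X (Sum.inl none)) (by
        simp only [map_sub, aeval_X, Sum.elim_inl, Sum.elim_inr, oe_none, sub_self])
      simp only [map_sub, eval_X, Sum.elim_inl, Sum.elim_inr, oe_none] at this
      exact sub_eq_zero.1 this
  · rintro ⟨h, rfl⟩ g hg
    have h1 : ∀ {α : Type} (x y : Fin n → α),
        (Sum.elim x y) ∘ (Sum.elim (rr i) Sum.inr) = Sum.elim (oe (y i) x) y := by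
      intro α x y
      funext o
      rcases o with (_ | l) | l <;> rfl
    have := h (rename (Sum.elim (rr i) Sum.inr) g) (by rw [aeval_rename, h1]; exact hg)
    rwa [eval_rename, h1] at this

/-- there is a point outside of the zeros of a polynomial -/
theorem exists_pt {σ : Type} [Finite σ] (ξ : σ → E) (g : MvPolynomial σ ℂ) (hg : aeval ξ g ≠ 0) :
    ∃ p ∈ Pt ξ, eval p g ≠ 0 := by
  by_contra hcon
  push Not at hcon
  have hprime : (RingHom.ker (aeval ξ : MvPolynomial σ ℂ →ₐ[ℂ] E).toRingHom).IsPrime :=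
    RingHom.ker_isPrime _
  have h1 := Pool.Agent.W333.ECV.nullst
    (RingHom.ker (aeval ξ : MvPolynomial σ ℂ →ₐ[ℂ] E).toRingHom) hprime g
    (fun h => hg h) 1 (fun p hp h => absurd (hcon p fun q hq => hp q hq) h)
  have h2 : aeval ξ (1 : MvPolynomial σ ℂ) = 0 := h1
  rw [map_one] at h2
  exact one_ne_zero h2

/-- **job GOOD** -/
theorem good : S_good := by
  classical
  intro n E _ _ G H0 i hH0 hT
  set ζ : Option (Fin n) → E := oe (G.y i) G.x with hζ
  obtain ⟨Θ, H1, g, hH1, ha, hb, hc⟩ := Pool.Agent.Q166.EG.alg E (Option (Fin n)) (Fin n) ζ G.y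
    (fun k => alg_all G hT _)
  -- the polynomial for the nonvanishing
  set g0 : MvPolynomial (Fin n ⊕ Fin n) ℂ := H0 * ∏ l, MvPolynomial.X (Sum.inr l) with hg0
  set γ : E := aeval (Sum.elim G.x G.y) g0 with hγ
  have hγ0 : γ ≠ 0 := by
    rw [hγ, hg0, map_mul, map_prod]
    refine mul_ne_zero hH0 (Finset.prod_ne_zero_iff.2 fun l _ => ?_)
    rw [aeval_X]
    exact G.hy l
  obtain ⟨A, hA1, hA2⟩ := Pool.Agent.Q206.EG.alg_poly ζ γ (alg_all G hT γ)
  set b := Nat.find hA1 with hbdef
  have hb1 : aeval ζ (A.coeff b) ≠ 0 := Nat.find_spec hA1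
  have hb2 : ∀ m < b, aeval ζ (A.coeff m) = 0 := fun m hm => not_not.1 (Nat.find_min hA1 hm)
  have hrE : ∀ q : MvPolynomial (Option (Fin n)) ℂ,
      aeval (Sum.elim G.x G.y) (rename (rr i) q) = aeval ζ q := fun q => by
    rw [aeval_rename, comp_rr]
  have hrC : ∀ (x p : Fin n → ℂ) (q : MvPolynomial (Option (Fin n)) ℂ),
      eval (Sum.elim x p) (rename (rr i) q) = eval (oe (p i) x) q := fun x p q => by
    rw [eval_rename, comp_rr]
  set B : MvPolynomial (Fin n ⊕ Fin n) ℂ := ∑ k ∈ Finset.range (A.natDegree + 1),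
    rename (rr i) (A.coeff (b + k)) * g0 ^ k with hB
  have hBE : aeval (Sum.elim G.x G.y) B = 0 := by
    have h1 : γ ^ b * aeval (Sum.elim G.x G.y) B = 0 := by
      have h2 : (A.map (aeval ζ : MvPolynomial (Option (Fin n)) ℂ →ₐ[ℂ] E).toRingHom).natDegree <
          b + (A.natDegree + 1) := by
        have := Polynomial.natDegree_map_le
          (f := (aeval ζ : MvPolynomial (Option (Fin n)) ℂ →ₐ[ℂ] E).toRingHom) (p := A)
        omega
      rw [Polynomial.eval_eq_sum_range' h2, Finset.sum_range_add] at hA2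
      rw [Finset.sum_eq_zero, zero_add] at hA2
      · rw [← hA2, hB, map_sum, Finset.mul_sum]
        refine Finset.sum_congr rfl fun k _ => ?_
        rw [map_mul, map_pow, hrE, Polynomial.coeff_map, pow_add]
        show _ = aeval ζ (A.coeff (b + k)) * _
        rw [← hγ]
        ring
      · intro m hm
        rw [Polynomial.coeff_map]
        have h3 : (aeval ζ : MvPolynomial (Option (Fin n)) ℂ →ₐ[ℂ] E).toRingHom (A.coeff m) = 0 :=
          hb2 m (Finset.mem_range.1 hm)
        rw [h3, zero_mul]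
    exact (mul_eq_zero.1 h1).resolve_left (pow_ne_zero _ hγ0)
  -- the degree of `Θ`
  obtain ⟨d, hd⟩ : ∃ d, Θ.natDegree = d + 1 := by
    have hne : aeval (Sum.elim ζ G.y) (rename Sum.inl H1 : MvPolynomial (Option (Fin n) ⊕ Fin n) ℂ)
        ≠ 0 := by
      rw [aeval_rename, Sum.elim_comp_inl]
      exact hH1
    obtain ⟨p, hp, hp1⟩ := exists_pt _ _ hne
    rw [eval_rename] at hp1
    have hp2 : Sum.elim (p ∘ Sum.inl) (p ∘ Sum.inr) ∈ Pt (Sum.elim ζ G.y) := by
      rw [Sum.elim_comp_inl_inr]
      exact hp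
    have hp3 : p ∘ Sum.inl ∈ Pt ζ := by
      intro q hq
      have := hp (rename Sum.inl q) (by rw [aeval_rename, Sum.elim_comp_inl]; exact hq)
      rwa [eval_rename] at this
    obtain ⟨z, hz, -⟩ := hb _ _ hp2 hp1
    have h1 := (ha _ hp3 hp1).1
    have h0 : Θ.natDegree ≠ 0 := by
      intro h0
      rw [Polynomial.eq_C_of_natDegree_eq_zero h0, Polynomial.map_C, Polynomial.eval_C] at hz
      apply h1
      rw [Polynomial.leadingCoeff, h0]
      exact hz
    exact ⟨Θ.natDegree - 1, by omega⟩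
  have hHm : ∀ t : Option (Fin n) → ℂ, eval t (H1 * A.coeff b) ≠ 0 → eval t H1 ≠ 0 := by
    intro t h h0
    apply h
    rw [map_mul, h0, zero_mul]
  refine ⟨H1 * A.coeff b, ?_, ?_, ?_, ?_⟩
  · rw [map_mul]
    exact mul_ne_zero hH1 hb1
  · intro x p hp hne
    have h1 : eval (Sum.elim x p) g0 ≠ 0 := by
      intro h0
      have h2 := hp B hBE
      rw [hB, map_sum, Finset.sum_range_succ'] at h2
      rw [Finset.sum_eq_zero, zero_add] at h2
      · rw [pow_zero, mul_one, add_zero, hrC] at h2
        apply hne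
        rw [map_mul, h2, mul_zero]
      · intro k _
        rw [map_mul, map_pow, h0, pow_succ, mul_zero, mul_zero]
    rw [hg0, map_mul, map_prod] at h1
    refine ⟨fun l hl => ?_, fun h => ?_⟩
    · apply h1
      rw [Finset.prod_eq_zero (Finset.mem_univ l), mul_zero]
      rw [eval_X]
      exact hl
    · apply h1
      rw [h, zero_mul]
  · intro x z hx hne
    have ht : oe z x ∈ Pt ζ := pt_zeta G hT hx
    have htH := hHm _ hne
    have hlead := (ha _ ht htH).1
    have hdeg : (Θ.map (eval (oe z x))).natDegree = Θ.natDegree :=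
      Polynomial.natDegree_map_of_leadingCoeff_ne_zero _ hlead
    have hdeg' : (Θ.map (eval (oe z x))).degree ≠ 0 := by
      intro h
      have := Polynomial.natDegree_eq_zero_iff_degree_le_zero.2 h.le
      omega
    obtain ⟨w, hw⟩ := IsAlgClosed.exists_root _ hdeg'
    have h3 := hc _ ht htH w hw
    have h4 := (pt_iff i G.x G.y x _ z).1 h3
    exact ⟨_, h4.1, h4.2⟩
  · intro W _ _ _ U X Y hU hconv hX hY hUP u0 hu0 p0 hp0 hp0i
    set t : W → Option (Fin n) → ℂ := fun u => oe (Y u) (X u) with ht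
    have htP : ∀ u ∈ U, t u ∈ Pt ζ := fun u hu => pt_zeta G hT (hUP u hu).1
    have htH : ∀ u ∈ U, eval (t u) H1 ≠ 0 := fun u hu => hHm _ (hUP u hu).2
    have htd : ∀ i, DifferentiableOn ℂ (fun u => t u i) U := by
      rintro (_ | l)
      · exact hY
      · exact differentiableOn_pi.1 hX l
    have hpt0 : Sum.elim (t u0) p0 ∈ Pt (Sum.elim ζ G.y) :=
      (pt_iff i G.x G.y (X u0) p0 (Y u0)).2 ⟨hp0, hp0i⟩
    obtain ⟨z0, hz0, hz0'⟩ := hb (t u0) p0 hpt0 (htH u0 hu0)
    -- the polynomial
    set F : W → ℂ → ℂ := fun u z => (Θ.map (eval (t u))).eval z with hF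
    have hcoeff : ∀ u j, (Θ.map (eval (t u))).coeff j = eval (t u) (Θ.coeff j) := fun u j =>
      Polynomial.coeff_map _ _
    have hcd : ∀ j, DifferentiableOn ℂ (fun u => eval (t u) (Θ.coeff j)) U := fun j =>
      diff_eval htd (Θ.coeff j)
    have hdeg : ∀ u ∈ U, (Θ.map (eval (t u))).natDegree = Θ.natDegree := fun u hu =>
      Polynomial.natDegree_map_of_leadingCoeff_ne_zero _ (ha (t u) (htP u hu) (htH u hu)).1
    have hFsum : ∀ u ∈ U, ∀ z, F u z =
        ∑ j ∈ Finset.range (d + 2), eval (t u) (Θ.coeff j) * z ^ j := by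
      intro u hu z
      simp only [hF]
      rw [Polynomial.eval_eq_sum_range, hdeg u hu, hd]
      simp only [hcoeff]
    have hFc : ContDiffOn ℂ 1 (fun p : W × ℂ => F p.1 p.2) (U ×ˢ Set.univ) := by
      have hopen : IsOpen (U ×ˢ (Set.univ : Set ℂ)) := hU.prod isOpen_univ
      have h3 : DifferentiableOn ℂ (fun p : W × ℂ => F p.1 p.2) (U ×ˢ Set.univ) := by
        have h4 : DifferentiableOn ℂ (fun p : W × ℂ =>
            ∑ j ∈ Finset.range (d + 2), eval (t p.1) (Θ.coeff j) * p.2 ^ j) (U ×ˢ Set.univ) := by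
          refine DifferentiableOn.fun_sum fun j _ => ?_
          have h5 : DifferentiableOn ℂ (fun p : W × ℂ => eval (t p.1) (Θ.coeff j))
              (U ×ˢ Set.univ) :=
            (hcd j).comp differentiableOn_fst fun p hp => hp.1
          exact h5.mul (differentiableOn_snd.pow j)
        exact h4.congr fun p hp => hFsum p.1 hp.1 p.2
      exact_mod_cast Sq58.Holo.contDiffOn_of_differentiableOn hopen h3 1
    have hprop : ∀ C : Set W, C ⊆ U → IsCompact C → ∀ M : ℝ, ∃ B : ℝ, ∀ s ∈ C, ∀ z,
        ‖F s z‖ ≤ M → ‖z‖ ≤ B := by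
      intro C hCU hC M
      rcases C.eq_empty_or_nonempty with rfl | hne
      · exact ⟨0, fun s hs => absurd hs (Set.notMem_empty _)⟩
      have hbd : ∀ j, ∃ A : ℝ, ∀ s ∈ C, ‖eval (t s) (Θ.coeff j)‖ ≤ A := fun j =>
        hC.exists_bound_of_continuousOn ((hcd j).continuousOn.mono hCU)
      choose A hA using hbd
      obtain ⟨s1, hs1, hmin⟩ :=
        hC.exists_isMinOn hne (((hcd (d + 1)).continuousOn.mono hCU).norm)
      have hm : 0 < ‖eval (t s1) (Θ.coeff (d + 1))‖ := by
        rw [norm_pos_iff]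
        have := (ha (t s1) (htP s1 (hCU hs1)) (htH s1 (hCU hs1))).1
        rwa [Polynomial.leadingCoeff, hd] at this
      have hAnn : ∀ j, 0 ≤ A j := fun j => (norm_nonneg _).trans (hA j s1 hs1)
      set A' : ℝ := ∑ j ∈ Finset.range (d + 2), A j with hA'
      have hA'0 : 0 ≤ A' := Finset.sum_nonneg fun j _ => hAnn j
      refine ⟨(|M| + (d + 1) * A') / ‖eval (t s1) (Θ.coeff (d + 1))‖ + 1, fun s hs z hz => ?_⟩
      refine Pool.Agent.Q239.EG.root_bound (p := Θ.map (eval (t s))) (d := d) ?_ hm (abs_nonneg M)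
        hA'0 ?_ ?_ (hz.trans (le_abs_self M))
      · rw [hdeg s (hCU hs), hd]
      · rw [hcoeff]
        exact hmin hs
      · intro j
        rw [hcoeff]
        by_cases hj : j < d + 2
        · exact (hA j s hs).trans
            (Finset.single_le_sum (fun i _ => hAnn i) (Finset.mem_range.2 hj))
        · rw [Polynomial.coeff_eq_zero_of_natDegree_lt (by omega), map_zero, norm_zero]
          exact hA'0
    have hsimple : ∀ s ∈ U, ∀ z, F s z = 0 → deriv (F s) z ≠ 0 := by
      intro s hs z hz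
      have h3 := (ha (t s) (htP s hs) (htH s hs)).2 z hz
      simp only [hF]
      rwa [Polynomial.deriv]
    obtain ⟨Z, hZd, hZc, hZ, -⟩ := Pool.Agent.H713R3.ZA.ROOT.main U F hU hconv hFc hprop
      hsimple u0 hu0 z0 hz0
    refine ⟨fun u k => ((g k).map (eval (t u))).eval (Z u) / eval (t u) H1, ?_, ?_, ?_⟩
    · rw [differentiableOn_pi]
      intro l
      simp only [div_eq_mul_inv]
      refine DifferentiableOn.mul ?_ ((diff_eval htd H1).inv htH)
      have h3 : ∀ p : Polynomial (MvPolynomial (Option (Fin n)) ℂ),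
          DifferentiableOn ℂ (fun u => (p.map (eval (t u))).eval (Z u)) U := by
        intro p
        induction p using Polynomial.induction_on' with
        | add p q hp hq =>
          simp only [Polynomial.map_add, Polynomial.eval_add]
          exact hp.add hq
        | monomial m a =>
          simp only [Polynomial.map_monomial, Polynomial.eval_monomial]
          exact (diff_eval htd a).mul (hZd.pow m)
      exact h3 _
    · funext l
      show ((g l).map (eval (t u0))).eval (Z u0) / eval (t u0) H1 = p0 l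
      rw [hZc, ← hz0' l, mul_div_cancel_left₀ _ (htH u0 hu0)]
    · intro u hu
      have h3 := hc (t u) (htP u hu) (htH u hu) (Z u) (hZ u hu)
      exact (pt_iff i G.x G.y (X u) _ (Y u)).1 h3

end Pool.Agent.H935.FH
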